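import Pool.Agent.H8.FM.Net

/-!
# The free module on a metric space: a coarser metric, closed metrizable pieces

The metric is the one of the library module `R_pool_sql_team_39128cda.Results.MP_f94ac9_gt.Paracompact` (there for the
real numbers), here for an arbitrary ring of scalars.
-/

set_option autoImplicit false

open Set Filter Topology MeasureTheory TopologicalSpace

universe u v w

namespace Pool.Agent.H8.FM

section
variable {K : Type w} [Ring K] {X : Type u} {L : Type v} [MetricSpace X] [AddCommGroup L] [Module K L]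
  (b : Module.Basis X K L)

/-- the sum of the coefficients of the points in the ball -/
noncomputable def S (p : X) (t : ℝ) : L →ₗ[K] K := b.constr ℕ fun x => if dist x p < t then 1 else 0

/-- the norm -/
noncomputable def N (z : L) : ENNReal := ⨆ p, volume {t ∈ Ioc (0 : ℝ) 1 | S b p t z ≠ 0}

lemma N_add (z w : L) : N b (z + w) ≤ N b z + N b w := iSup_le fun p => by
  refine le_trans (measure_mono ?_) ((measure_union_le {t ∈ Ioc (0 : ℝ) 1 | S b p t z ≠ 0}
    {t ∈ Ioc (0 : ℝ) 1 | S b p t w ≠ 0}).trans (add_le_add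
    (le_iSup (fun p => volume {t ∈ Ioc (0 : ℝ) 1 | S b p t z ≠ 0}) p)
    (le_iSup (fun p => volume {t ∈ Ioc (0 : ℝ) 1 | S b p t w ≠ 0}) p)))
  rintro t ⟨h1, h2⟩
  by_contra h
  have h' : ¬ (S b p t z ≠ 0) ∧ ¬ (S b p t w ≠ 0) := ⟨fun h3 => h (Or.inl ⟨h1, h3⟩), fun h3 => h (Or.inr ⟨h1, h3⟩)⟩
  rw [not_not, not_not] at h'
  exact h2 (by rw [map_add, h'.1, h'.2, add_zero])

lemma N_smul (r : K) (z : L) : N b (r • z) ≤ N b z := iSup_mono fun p => measure_mono fun t ht =>
  ⟨ht.1, fun h => ht.2 (by rw [map_smul, h, smul_zero])⟩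

lemma S_eq (p : X) (t : ℝ) (z : L) (y : X) (h1 : dist y p < t)
    (h2 : ∀ x ∈ (b.repr z).support, x ≠ y → t ≤ dist x p) : S b p t z = b.repr z y := by
  rw [S, Module.Basis.constr_apply, Finsupp.sum, Finset.sum_eq_single y]
  · simp [h1]
  · intro x hx h; simp [not_lt.2 (h2 x hx h)]
  · intro h; simp [Finsupp.notMem_support_iff.1 h]

lemma S_zero (p : X) (t : ℝ) (z : L) (h2 : ∀ x ∈ (b.repr z).support, t ≤ dist x p) : S b p t z = 0 := by
  rw [S, Module.Basis.constr_apply, Finsupp.sum]
  exact Finset.sum_eq_zero fun x hx => by simp [not_lt.2 (h2 x hx)]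

lemma sepa (s : Finset X) {δ : ℝ} (h : 0 < δ) : ∃ η, 0 < η ∧ η ≤ δ ∧ η ≤ 1 ∧
    ∀ x ∈ s, ∀ y ∈ s, x ≠ y → 2 * η ≤ dist x y := by
  have : ∀ᶠ η in 𝓝[>] (0 : ℝ), ∀ x ∈ s, ∀ y ∈ s, x ≠ y → 2 * η ≤ dist x y :=
    (eventually_all_finset s).2 fun x _ => (eventually_all_finset s).2 fun y _ => by
      by_cases h : x = y
      · simp [h]
      · filter_upwards [Ioc_mem_nhdsGT (half_pos (dist_pos.2 h))] with η hη _ using by linarith [hη.2]
  obtain ⟨η, h1, h2⟩ := (this.and (Ioc_mem_nhdsGT (lt_min h one_pos))).exists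
  exact ⟨η, h2.1, h2.2.trans (min_le_left _ _), h2.2.trans (min_le_right _ _), h1⟩

lemma ex_t {z : L} {η : ℝ} (h1 : η ≤ 1) (h : N b z < ENNReal.ofReal η) (p : X) :
    ∃ t ∈ Ioc 0 η, S b p t z = 0 := by
  by_contra! h2
  refine h.not_ge (le_trans ?_ (le_iSup _ p))
  refine le_trans (by simp) (measure_mono (s := Ioc 0 η) fun t ht => ⟨⟨ht.1, ht.2.trans h1⟩, h2 t ht⟩)

lemma N_self (z : L) : N b (z - z) = 0 := by simp [N]
lemma N_comm (z w : L) : N b (z - w) ≤ N b (w - z) := by simpa using N_smul b (-1) (w - z)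
lemma N_tri (z w v : L) : N b (z - v) ≤ N b (z - w) + N b (w - v) := by
  simpa using N_add b (z - w) (w - v)

lemma N_zero {z : L} (h : N b z = 0) : z = 0 := by
  obtain ⟨η, h0, -, h1, h2⟩ := sepa (b.repr z).support one_pos
  refine b.repr.map_eq_zero_iff.1 (Finsupp.ext fun p => ?_)
  by_contra h3
  have h3' : b.repr z p ≠ 0 := h3
  obtain ⟨t, t1, t2⟩ := ex_t b (z := z) h1 (by rw [h]; exact ENNReal.ofReal_pos.2 h0) p
  rw [S_eq b p t _ p (by simpa using t1.1) fun x hx hne => by
    have := h2 x hx p (Finsupp.mem_support_iff.2 h3') hne; linarith [t1.2]] at t2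
  exact h3' t2

/-- the module with the metric topology -/
def E (_ : Module.Basis X K L) : Type v := L
instance : AddCommGroup (E b) := inferInstanceAs (AddCommGroup L)
instance : Module K (E b) := inferInstanceAs (Module K L)

noncomputable instance : EMetricSpace (E b) where
  edist z w := N b (z - w)
  edist_self z := N_self b z
  edist_comm z w := le_antisymm (N_comm b z w) (N_comm b w z)
  edist_triangle z w v := N_tri b z w v
  eq_of_edist_eq_zero {z w} h := sub_eq_zero.1 (N_zero b h)

lemma ed (z w : E b) : edist z w = N b (z - w) := rfl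

instance : ContinuousAdd (E b) := ⟨(show LipschitzWith 2 fun p : E b × E b => p.1 + p.2 from fun p q => by
  rw [ed, add_sub_add_comm, ENNReal.coe_ofNat, two_mul]
  exact (N_add b _ _).trans (add_le_add (le_max_left _ _) (le_max_right _ _))).continuous⟩

instance : ContinuousConstSMul K (E b) := ⟨fun r => (show LipschitzWith 1 fun z : E b => r • z from
  fun z w => by rw [ed, ← smul_sub, ENNReal.coe_one, one_mul]; exact N_smul b r _).continuous⟩

lemma lip : @LipschitzWith X (E b) _ _ 1 (fun x => b x) := fun x y => by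
  rw [ENNReal.coe_one, one_mul, edist_dist]
  refine iSup_le fun p => le_trans (measure_mono (t := uIcc (dist x p) (dist y p)) ?_) ?_
  · rintro t ⟨-, h⟩
    have e : S b p t (b x - b y) = (if dist x p < t then 1 else 0) - if dist y p < t then 1 else 0 := by
      simp [S]
    have h : S b p t (b x - b y) ≠ 0 := h
    rw [e] at h
    rw [mem_uIcc]
    by_cases h1 : dist x p < t <;> by_cases h2 : dist y p < t <;> simp_all [le_of_lt]
  · rw [Real.volume_interval, dist_comm x y]
    exact ENNReal.ofReal_le_ofReal (abs_dist_sub_le y x p)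

lemma loc [TopologicalSpace L] [ContinuousAdd L] [ContinuousConstSMul K L] (hb : Continuous b) (z : L)
    (U : Set L) (hU : U ∈ 𝓝 z) : ∃ ε > 0, ∀ w, (b.repr w).support.card = (b.repr z).support.card →
      N b (w - z) < ε → w ∈ U := by
  classical
  set s := (b.repr z).support
  let G : (s → X) → L := fun y => ∑ x : s, b.repr z x • b (y x)
  have Gc : Continuous G := continuous_finsetSum _ fun x _ => (hb.comp (continuous_apply x)).const_smul _
  have Gz : G Subtype.val = z := by
    simp only [G]
    rw [Finset.sum_coe_sort s fun x => b.repr z x • b x]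
    exact b.linearCombination_repr z
  obtain ⟨δ, δ0, hδ⟩ := Metric.mem_nhds_iff.1 (Gc.continuousAt (x := Subtype.val) (Gz.symm ▸ hU))
  obtain ⟨η, h0, h1, h2, h3⟩ := sepa s δ0
  refine ⟨_, ENNReal.ofReal_pos.2 h0, fun w hc hw => ?_⟩
  choose t t1 t2 using ex_t b h2 hw
  have e : ∀ x ∈ s, S b x (t x) w = b.repr z x := fun x hx => by
    have := t2 x
    rw [map_sub, S_eq b x _ z x (by simpa using (t1 x).1) fun y hy hne => by
      have := h3 y hy x hx hne; linarith [(t1 x).2]] at this
    exact sub_eq_zero.1 this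
  have ey : ∀ x : s, ∃ y ∈ (b.repr w).support, dist y x < t x := fun x => by
    by_contra! h
    refine Finsupp.mem_support_iff.1 x.2 ((e x x.2).symm.trans ?_)
    exact S_zero b _ _ _ h
  choose y y1 y2 using ey
  have far : ∀ x x' : s, x' ≠ x → t x ≤ dist (y x') x := fun x x' hne => by
    have := h3 x' x'.2 x x.2 (Subtype.val_injective.ne hne)
    have := dist_triangle_left (x' : X) x (y x')
    linarith [y2 x', (t1 x).2, (t1 x').2]
  have inj : Function.Injective y := fun x x' h => by
    by_contra hne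
    exact (far x' x hne).not_gt (h ▸ y2 x')
  have im : Finset.univ.image y = (b.repr w).support := Finset.eq_of_subset_of_card_le
    (fun u hu => by obtain ⟨x, -, rfl⟩ := Finset.mem_image.1 hu; exact y1 x)
    (by rw [Finset.card_image_of_injective _ inj, hc]; simp)
  have hw : G y = w := by
    rw [← b.linearCombination_repr w, Finsupp.linearCombination_apply, Finsupp.sum, ← im,
      Finset.sum_image inj.injOn]
    refine Finset.sum_congr rfl fun x _ => ?_
    rw [← e x x.2, S_eq b x _ w (y x) (y2 x) fun u hu hne => ?_]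
    rw [← im] at hu
    obtain ⟨x', -, rfl⟩ := Finset.mem_image.1 hu
    exact far x x' fun h => hne (h ▸ rfl)
  rw [← hw]
  exact hδ ((dist_pi_lt_iff δ0).2 fun x => (y2 x).trans_le ((t1 x).2.trans h1))

/-- the elements with `k` points in the support, with mutual distances at least `1 / (n + 1)` -/
def Pc (k n : ℕ) : Set L := {z | (b.repr z).support.card = k ∧
  ∀ x ∈ (b.repr z).support, ∀ y ∈ (b.repr z).support, x ≠ y → 1 / ((n : ℝ) + 1) ≤ dist x y}

/-- The pieces are closed under limits for the norm. -/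
lemma Pc_lim {k n : ℕ} {z : L} (hz : ∀ η : ℝ, 0 < η → ∃ w ∈ Pc b k n, N b (w - z) < ENNReal.ofReal η) :
    z ∈ Pc b k n := by
  classical
  have key : z ∈ Pc b k n := by
    have hn : (0 : ℝ) < 1 / ((n : ℝ) + 1) := by positivity
    set s := (b.repr z).support with hs
    -- approximation at the scale `δ`
    have main : ∀ δ : ℝ, 0 < δ → 2 * δ < 1 / ((n : ℝ) + 1) → ∃ w : L, w ∈ Pc b k n ∧
        ∃ y : s → X, (∀ x, y x ∈ (b.repr w).support) ∧ (∀ x : s, dist (y x) x < δ) ∧ Function.Injective y ∧
          ∀ u ∈ (b.repr w).support, ∃ x, y x = u := by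
      intro δ hδ hδn
      obtain ⟨η, h0, h1, h2, h3⟩ := sepa s hδ
      obtain ⟨w, hwP, hw'⟩ := hz η h0
      refine ⟨w, hwP, ?_⟩
      choose t t1 t2 using ex_t b h2 hw'
      have e : ∀ x ∈ s, S b x (t x) w = b.repr z x := fun x hx => by
        have := t2 x
        rw [map_sub, S_eq b x _ z x (by simpa using (t1 x).1) fun y hy hne => by
          have := h3 y hy x hx hne; linarith [(t1 x).2]] at this
        exact sub_eq_zero.1 this
      have ey : ∀ x : s, ∃ y ∈ (b.repr w).support, dist y x < t x := fun x => by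
        by_contra! h
        refine Finsupp.mem_support_iff.1 x.2 ((e x x.2).symm.trans ?_)
        exact S_zero b _ _ _ h
      choose y y1 y2 using ey
      have y3 : ∀ x : s, dist (y x) x < δ := fun x => (y2 x).trans_le ((t1 x).2.trans h1)
      refine ⟨y, y1, y3, ?_, ?_⟩
      · intro x x' h
        by_contra hne
        have h5 := h3 x x.2 x' x'.2 (Subtype.val_injective.ne hne)
        have h6 := dist_triangle_left (x : X) x' (y x)
        have h7 : dist (y x) x' < t x' := by rw [h]; exact y2 x'
        linarith [y2 x, (t1 x).2, (t1 x').2]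
      · intro u hu
        -- the sum over the ball at `u` is the coefficient of `u`
        have h5 : S b u (t u) w = b.repr w u := by
          refine S_eq b u _ w u (by simpa using (t1 u).1) fun y hy hne => ?_
          have h6 := hwP.2 y hy u hu hne
          linarith [(t1 u).2]
        have h6 : S b u (t u) z = b.repr w u := by
          have := t2 u
          rw [map_sub, h5] at this
          exact (sub_eq_zero.1 this).symm
        obtain ⟨x, hx, hxu⟩ : ∃ x ∈ s, dist x u < t u := by
          by_contra! h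
          refine Finsupp.mem_support_iff.1 hu (h6.symm.trans ?_)
          exact S_zero b _ _ _ h
        refine ⟨⟨x, hx⟩, ?_⟩
        by_contra hne
        have h7 := hwP.2 _ (y1 ⟨x, hx⟩) u hu hne
        have h8 := dist_triangle (y ⟨x, hx⟩) x u
        have h9 := y3 ⟨x, hx⟩
        have h10 : dist (y ⟨x, hx⟩) x < δ := h9
        linarith [(t1 u).2]
    refine ⟨?_, ?_⟩
    · obtain ⟨w, hwP, y, y1, y2, y3, y4⟩ := main (1 / ((n : ℝ) + 1) / 3) (by positivity) (by linarith)
      have im : Finset.univ.image y = (b.repr w).support := by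
        ext u
        constructor
        · intro hu
          obtain ⟨x, -, rfl⟩ := Finset.mem_image.1 hu
          exact y1 x
        · intro hu
          obtain ⟨x, rfl⟩ := y4 u hu
          exact Finset.mem_image_of_mem _ (Finset.mem_univ x)
      have h1 := hwP.1
      rw [← im, Finset.card_image_of_injective _ y3] at h1
      rw [← h1]
      simp [s]
    · intro x hx x' hx' hne
      by_contra hlt
      rw [not_le] at hlt
      -- a scale which is small with respect to the defect
      obtain ⟨δ, hδ0, hδ1⟩ : ∃ δ : ℝ, 0 < δ ∧ 2 * δ < 1 / ((n : ℝ) + 1) - dist x x' :=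
        ⟨(1 / ((n : ℝ) + 1) - dist x x') / 3, by linarith, by linarith⟩
      obtain ⟨w, hwP, y, y1, y2, y3, y4⟩ := main δ hδ0 (by linarith [dist_nonneg (x := x) (y := x')])
      have h1 := hwP.2 _ (y1 ⟨x, hx⟩) _ (y1 ⟨x', hx'⟩) (y3.ne fun h => hne (congrArg Subtype.val h))
      have h2 := dist_triangle4 (y ⟨x, hx⟩) x x' (y ⟨x', hx'⟩)
      have h3 : dist (y ⟨x, hx⟩) x < δ := y2 ⟨x, hx⟩
      have h4 : dist (y ⟨x', hx'⟩) x' < δ := y2 ⟨x', hx'⟩
      rw [dist_comm] at h4
      linarith
  exact key

/-- The pieces are closed in the metric topology. -/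
lemma Pc_closed (k n : ℕ) : @IsClosed (E b) _ (Pc b k n) := by
  refine isClosed_of_closure_subset fun z hz => ?_
  refine Pc_lim b fun η hη => ?_
  obtain ⟨w, hw1, hw2⟩ := EMetric.mem_closure_iff.1 hz _ (ENNReal.ofReal_pos.2 hη)
  refine ⟨w, hw1, ?_⟩
  rw [edist_comm] at hw2
  exact hw2

lemma Pc_cover (z : L) : ∃ n, z ∈ Pc b (b.repr z).support.card n := by
  obtain ⟨η, h0, -, -, h3⟩ := sepa (b.repr z).support one_pos
  obtain ⟨n, hn⟩ := exists_nat_one_div_lt h0
  exact ⟨n, rfl, fun x hx y hy hne => by linarith [h3 x hx y hy hne]⟩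

/-- **The free module.** If the identity to the metric topology is continuous, then the module has a net and it is a
countable union of closed metrizable subspaces. -/
theorem free_net [TopologicalSpace L] [ContinuousAdd L] [ContinuousConstSMul K L] (hb : Continuous b)
    (F : L → E b) (hF : Continuous F) (hid : ∀ z, F z = z) :
    HasNet L ∧ ∃ C : ℕ → Set L, (∀ n, IsClosed (C n) ∧ MetrizableSpace (C n)) ∧ ⋃ n, C n = univ := by
  have hcl : ∀ k n, IsClosed (Pc b k n) := by
    intro k n
    have h1 := (Pc_closed b k n).preimage hF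
    have h2 : F ⁻¹' (Pc b k n) = Pc b k n := by
      ext z
      rw [mem_preimage, hid]
      exact Iff.rfl
    rwa [h2] at h1
  have hmetE : MetrizableSpace (E b) := inferInstance
  have hnb : ∀ k n, ∀ z ∈ Pc b k n, ∀ U ∈ 𝓝 z, ∃ V ∈ 𝓝 (F z), ∀ w ∈ Pc b k n, F w ∈ V → w ∈ U := by
    intro k n z hz U hU
    obtain ⟨ε, hε, h⟩ := loc b hb z U hU
    refine ⟨Metric.eball (F z) ε, Metric.eball_mem_nhds _ hε, fun w hw hwV => ?_⟩
    refine h w (hw.1.trans hz.1.symm) ?_
    have h1 : edist (F w) (F z) < ε := hwV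
    rw [hid, hid] at h1
    exact h1
  refine ⟨?_, ?_⟩
  · refine hasNet_of (ι := ℕ × ℕ) F hF (fun p => Pc b p.1 p.2) (fun p => hcl _ _) fun z U hU => ?_
    obtain ⟨n, hn⟩ := Pc_cover b z
    exact ⟨(_, n), hn, hnb _ n z hn U hU⟩
  · refine ⟨fun m => Pc b m.unpair.1 m.unpair.2, fun m => ⟨hcl _ _, ?_⟩, ?_⟩
    · have hemb : IsEmbedding (fun z : Pc b m.unpair.1 m.unpair.2 => F z) := by
        refine ⟨⟨?_⟩, ?_⟩
        · refine le_antisymm ?_ ?_
          · exact continuous_iff_le_induced.1 (hF.comp continuous_subtype_val)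
          · refine le_of_nhds_le_nhds fun z => ?_
            rw [nhds_induced]
            intro U hU
            obtain ⟨W, hW, hWU⟩ := mem_nhds_subtype _ _ _ |>.1 hU
            obtain ⟨V, hV, h⟩ := hnb _ _ z z.2 W hW
            exact mem_comap.2 ⟨V, hV, fun w hw => hWU (h w w.2 hw)⟩
        · intro z z' h
          have h' : F z = F z' := h
          rw [hid, hid] at h'
          exact Subtype.ext h'
      exact hemb.metrizableSpace
    · refine eq_univ_of_forall fun z => ?_
      obtain ⟨n, hn⟩ := Pc_cover b z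
      exact mem_iUnion.2 ⟨Nat.pair _ n, by simpa using hn⟩

end

end Pool.Agent.H8.FM
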