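import Mathlib

/-!
# Spaces with a countable family of closed sets on which the topology is controlled by a metrizable space

`HasNet Z`: there are a continuous map `π` to a metrizable space and countably many closed sets `A n` such that for each
point `z` and each neighbourhood `U` of `z` there is `n` with `z ∈ A n`, such that the points of `A n` whose image is close
to the image of `z` are in `U`. This property is inherited by subspaces and countable products; completely regular
Hausdorff spaces with it are paracompact and perfectly normal. (The proof of paracompactness is the one of the library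
module `R_pool_sql_team_39128cda.Results.MP_f94ac9_gt.Paracompact` for levels of a function to `ℕ`.)
-/

set_option autoImplicit false

open Set Filter Topology TopologicalSpace

universe u

namespace Pool.Agent.H8.FM

theorem pc {Z M : Type u} [TopologicalSpace Z] [CompletelyRegularSpace Z] [Nonempty Z]
    [PseudoEMetricSpace M] (π : Z → M) (hπ : Continuous π) (A : ℕ → Set Z)
    (h : ∀ z, ∀ U ∈ 𝓝 z, ∃ n, z ∈ A n ∧ ∃ ε > 0, ∀ w ∈ A n, edist (π w) (π z) < ε → w ∈ U) :
    ParacompactSpace Z := by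
  classical
  refine ⟨fun α s so sc => ?_⟩
  choose a ha using iUnion_eq_univ_iff.1 sc
  choose f f1 f2 f3 using fun z => CompletelyRegularSpace.completely_regular_isOpen z _ (so (a z)) (ha z)
  let g : Z → Z → ℝ := fun z w => 1 - f z w
  have gc : ∀ z, Continuous (g z) := fun z => continuous_const.sub (continuous_subtype_val.comp (f1 z))
  have g0 : ∀ z w, 0 ≤ g z w := fun z w => sub_nonneg.2 (f z w).2.2
  choose k hk ε ε0 hε using fun z => h z {w | 0 < g z w}
    ((isOpen_lt continuous_const (gc z)).mem_nhds (by simp [g, f2]))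
  let r : ℕ → ENNReal := fun n => ((n.unpair.2 : ENNReal))⁻¹ / 2
  choose ρ hρ using fun n => PartitionOfUnity.exists_isSubordinate isClosed_univ
    (fun m : M => Metric.eball m (r n)) (fun m => Metric.isOpen_eball) fun m _ =>
      mem_iUnion.2 ⟨m, Metric.mem_eball_self (ENNReal.half_pos (by simp))⟩
  let P : ℕ → M → Z → Prop := fun n m z =>
    k z = n.unpair.1 ∧ (n.unpair.2 : ENNReal)⁻¹ < ε z ∧ π z ∈ Metric.eball m (r n)
  let c : ℕ → M → Z := fun n m => Classical.epsilon (P n m)
  let G : ℕ → M → Z → ℝ := fun n m w => g (c n m) w * ρ n m (π w)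
  have Gc : ∀ n m, Continuous (G n m) := fun n m => (gc _).mul ((ρ n m).continuous.comp hπ)
  have G0 : ∀ n m w, 0 ≤ G n m w := fun n m w => mul_nonneg (g0 _ _) ((ρ n).nonneg m _)
  have Gl : ∀ n, LocallyFinite fun m => Function.support (G n m) := fun n =>
    ((ρ n).locallyFinite.preimage_continuous hπ).subset fun m w hw => right_ne_zero_of_mul hw
  let H : ℕ → Z → ℝ := fun n w => ∑ᶠ m, G n m w
  have Hc : ∀ n, Continuous (H n) := fun n => continuous_finsum (Gc n) (Gl n)
  have H0 : ∀ z, ∃ n, 0 < H n z := fun z => by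
    obtain ⟨j, hj⟩ := ENNReal.exists_inv_nat_lt (ε0 z).ne'
    obtain ⟨m, hm⟩ := (ρ (Nat.pair (k z) j)).exists_pos (mem_univ (π z))
    have h1 : π z ∈ Metric.eball m (r (Nat.pair (k z) j)) := hρ _ m (subset_tsupport _ hm.ne')
    obtain ⟨p1, p2, p3⟩ : P _ m (c _ m) :=
      Classical.epsilon_spec (p := P (Nat.pair (k z) j) m) ⟨z, by simp, by simpa using hj, h1⟩
    refine ⟨Nat.pair (k z) j, finsum_pos (fun m => G0 _ m z) ⟨m, mul_pos (hε _ z ?_ ?_) hm⟩
      ((Gl _).point_finite z)⟩
    · rw [p1, Nat.unpair_pair]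
      exact hk z
    refine lt_of_le_of_lt (edist_triangle_right _ _ m) (lt_trans ?_ p2)
    exact (ENNReal.add_lt_add h1 p3).trans_eq (ENNReal.add_halves _)
  refine ⟨ℕ × M, fun p => Function.support (G p.1 p.2) ∩ ⋂ i ∈ Iio p.1, {w | H i w < 1 / ((p.1 : ℝ) + 1)},
    fun p => (Gc _ _).isOpen_support.inter ((finite_Iio _).isOpen_biInter fun i _ =>
      isOpen_lt (Hc i) continuous_const), iUnion_eq_univ_iff.2 fun z => ?_, fun z => ?_,
    fun p => ⟨a (c p.1 p.2), fun w hw => ?_⟩⟩
  · obtain ⟨m, hm⟩ : ∃ m, G (Nat.find (H0 z)) m z ≠ 0 := by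
      by_contra! h1
      exact (Nat.find_spec (H0 z)).ne' (finsum_eq_zero_of_forall_eq_zero h1)
    exact ⟨(_, m), hm, mem_iInter₂.2 fun i hi =>
      (not_lt.1 (Nat.find_min (H0 z) hi)).trans_lt Nat.one_div_pos_of_nat⟩
  · obtain ⟨n, hn⟩ := H0 z
    obtain ⟨N, hN⟩ := exists_nat_one_div_lt hn
    choose O O1 O2 using fun i => Gl i z
    refine ⟨{w | 1 / ((N : ℝ) + 1) < H n w} ∩ ⋂ i ∈ Iic (max n N), O i,
      inter_mem ((isOpen_lt continuous_const (Hc n)).mem_nhds hN)
        ((biInter_mem (finite_Iic _)).2 fun i _ => O1 i), ?_⟩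
    refine ((finite_Iic (max n N)).biUnion fun i _ => (O2 i).image (Prod.mk i)).subset ?_
    rintro ⟨i, m⟩ ⟨w, ⟨w1, w2⟩, w3, w4⟩
    have hi : i ≤ max n N := by
      by_contra! h1
      have h2 : H n w < 1 / ((i : ℝ) + 1) := mem_iInter₂.1 w2 n ((le_max_left _ _).trans_lt h1)
      have h3 := Nat.one_div_le_one_div (α := ℝ) ((le_max_right n N).trans h1.le)
      exact absurd (h2.trans_le h3) (not_lt.2 (le_of_lt w3))
    exact mem_biUnion hi ⟨m, ⟨w, w1, mem_iInter₂.1 w4 i hi⟩, rfl⟩
  · by_contra h1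
    exact left_ne_zero_of_mul hw.1 (by simp [g, f3 _ h1])

/-- There are a continuous map `π` to a metrizable space and countably many closed sets `A n` such that for each point `z`
and each neighbourhood `U` of `z` there is `n` with `z ∈ A n` such that all points of `A n` whose image is close to the image
of `z` are in `U`. -/
def HasNet (Z : Type u) [TopologicalSpace Z] : Prop :=
  ∃ (M : Type u) (_ : TopologicalSpace M) (_ : MetrizableSpace M) (π : Z → M) (A : ℕ → Set Z),
    Continuous π ∧ (∀ n, IsClosed (A n)) ∧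
    ∀ z, ∀ U ∈ 𝓝 z, ∃ n, z ∈ A n ∧ ∃ V ∈ 𝓝 (π z), ∀ w ∈ A n, π w ∈ V → w ∈ U

variable {Z : Type u} [TopologicalSpace Z]

/-- A version with any countable index type. -/
theorem hasNet_of {ι : Type} [Countable ι] {M : Type u} [TopologicalSpace M] [MetrizableSpace M] (π : Z → M)
    (hπ : Continuous π) (A : ι → Set Z) (hA : ∀ i, IsClosed (A i))
    (h : ∀ z, ∀ U ∈ 𝓝 z, ∃ i, z ∈ A i ∧ ∃ V ∈ 𝓝 (π z), ∀ w ∈ A i, π w ∈ V → w ∈ U) : HasNet Z := by
  obtain ⟨e, he⟩ := Countable.exists_injective_nat ι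
  refine ⟨M, inferInstance, inferInstance, π, Function.extend e A fun _ => ∅, hπ, ?_, ?_⟩
  · intro n
    by_cases hn : ∃ i, e i = n
    · obtain ⟨i, rfl⟩ := hn
      rw [he.extend_apply]
      exact hA i
    · rw [Function.extend_apply' _ _ _ hn]
      exact isClosed_empty
  · intro z U hU
    obtain ⟨i, hi, V, hV, hw⟩ := h z U hU
    refine ⟨e i, ?_, V, hV, ?_⟩
    · rw [he.extend_apply]
      exact hi
    · rw [he.extend_apply]
      exact hw

theorem HasNet.para [CompletelyRegularSpace Z] (h : HasNet Z) : ParacompactSpace Z := by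
  obtain ⟨M, _, _, π, A, hπ, hA, h⟩ := h
  rcases isEmpty_or_nonempty Z with hZ | hZ
  · infer_instance
  letI := metrizableSpaceMetric M
  refine pc π hπ A fun z U hU => ?_
  obtain ⟨n, hn, V, hV, hw⟩ := h z U hU
  obtain ⟨ε, hε, hb⟩ := EMetric.mem_nhds_iff.1 hV
  exact ⟨n, hn, ε, hε, fun w hwA hd => hw w hwA (hb hd)⟩

/-- Closed sets are countable intersections of open sets. -/
theorem HasNet.gdelta (h : HasNet Z) {C : Set Z} (hC : IsClosed C) : IsGδ C := by
  obtain ⟨M, _, _, π, A, hπ, hA, h⟩ := h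
  letI := metrizableSpaceMetric M
  -- the closed pieces of the complement
  let D : ℕ → ℕ → Set Z := fun n j => {z ∈ A n | ∀ w ∈ A n, dist (π w) (π z) < 1 / ((j : ℝ) + 1) → w ∈ Cᶜ}
  have hDc : ∀ n j, IsClosed (D n j) := by
    intro n j
    rw [← isOpen_compl_iff, isOpen_iff_mem_nhds]
    intro z hz
    by_cases hzA : z ∈ A n
    · have hz' : ∃ w ∈ A n, dist (π w) (π z) < 1 / ((j : ℝ) + 1) ∧ w ∉ Cᶜ := by
        by_contra hcon
        push Not at hcon
        exact hz ⟨hzA, hcon⟩
      obtain ⟨w, hwA, hw, hwC⟩ := hz'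
      have hc : Continuous fun y : Z => dist (π w) (π y) := continuous_const.dist hπ
      have h1 : {y : Z | dist (π w) (π y) < 1 / ((j : ℝ) + 1)} ∈ 𝓝 z :=
        (isOpen_lt hc continuous_const).mem_nhds hw
      refine mem_of_superset h1 fun y hy hyD => ?_
      exact hwC (hyD.2 w hwA hy)
    · refine mem_of_superset ((hA n).isOpen_compl.mem_nhds hzA) fun y hy hyD => hy hyD.1
  have hU : C = ⋂ p : ℕ × ℕ, (D p.1 p.2)ᶜ := by
    ext z
    simp only [mem_iInter, mem_compl_iff]
    constructor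
    · rintro hz ⟨n, j⟩ ⟨hzA, hzD⟩
      exact hzD z hzA (by rw [dist_self]; positivity) hz
    · intro hz
      by_contra hzC
      obtain ⟨n, hn, V, hV, hw⟩ := h z Cᶜ (hC.isOpen_compl.mem_nhds hzC)
      obtain ⟨ε, hε, hb⟩ := Metric.mem_nhds_iff.1 hV
      obtain ⟨j, hj⟩ := exists_nat_one_div_lt hε
      exact hz (n, j) ⟨hn, fun w hwA hd => hw w hwA (hb (Metric.mem_ball.2 (hd.trans hj)))⟩
  rw [hU]
  exact IsGδ.iInter fun p => (hDc p.1 p.2).isOpen_compl.isGδ

theorem HasNet.perfect [CompletelyRegularSpace Z] [T2Space Z] (h : HasNet Z) : PerfectlyNormalSpace Z := by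
  have := h.para
  have h4 : NormalSpace Z := inferInstance
  exact { h4 with closed_gdelta := fun C hC => h.gdelta hC }

theorem HasNet.sub (h : HasNet Z) (S : Set Z) : HasNet S := by
  obtain ⟨M, hM, hM', π, A, hπ, hA, h⟩ := h
  refine ⟨M, hM, hM', fun z => π z, fun n => Subtype.val ⁻¹' A n, hπ.comp continuous_subtype_val,
    fun n => (hA n).preimage continuous_subtype_val, ?_⟩
  intro z U hU
  obtain ⟨W, hW, hWU⟩ := mem_nhds_subtype _ _ _ |>.1 hU
  obtain ⟨n, hn, V, hV, hw⟩ := h z W hW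
  exact ⟨n, hn, V, hV, fun w hwA hwV => hWU (hw w hwA hwV)⟩

theorem hasNet_pi {L : ℕ → Type u} [∀ i, TopologicalSpace (L i)] (h : ∀ i, HasNet (L i)) :
    HasNet (∀ i, L i) := by
  choose M hM hM' π A hπ hA h using h
  have hmet : MetrizableSpace (∀ i, M i) := by
    letI : ∀ i, MetricSpace (M i) := fun i => metrizableSpaceMetric (M i)
    exact UniformSpace.metrizableSpace
  refine hasNet_of (ι := Σ n : ℕ, Fin n → ℕ) (fun z i => π i (z i))
    (continuous_pi fun i => (hπ i).comp (continuous_apply i))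
    (fun p => {z | ∀ i : Fin p.1, z i ∈ A i (p.2 i)}) (fun p => ?_) ?_
  · have : {z : ∀ i, L i | ∀ i : Fin p.1, z i ∈ A i (p.2 i)} = ⋂ i : Fin p.1, (fun z : ∀ i, L i => z i) ⁻¹' A i (p.2 i) := by
      ext z
      simp
    rw [this]
    exact isClosed_iInter fun i => (hA i _).preimage (continuous_apply _)
  · intro z U hU
    rw [nhds_pi, Filter.mem_pi] at hU
    obtain ⟨I, hI, t, ht, hIU⟩ := hU
    obtain ⟨n, hn⟩ : ∃ n : ℕ, ∀ i ∈ I, i < n := by
      obtain ⟨b, hb⟩ := hI.bddAbove
      exact ⟨b + 1, fun i hi => Nat.lt_succ_of_le (hb hi)⟩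
    choose k hk V hV hw using fun i => h i (z i) (t i) (ht i)
    refine ⟨⟨n, fun i => k i⟩, fun i => hk i, {v | ∀ i ∈ Finset.range n, v i ∈ V i}, ?_, ?_⟩
    · have h1 : ∀ i ∈ Finset.range n, ∀ᶠ v : ∀ i, M i in 𝓝 (fun i => π i (z i)), v i ∈ V i := fun i _ =>
        (continuous_apply i).continuousAt.eventually_mem (hV i)
      have h2 : ∀ᶠ v : ∀ i, M i in 𝓝 (fun i => π i (z i)), ∀ i ∈ Finset.range n, v i ∈ V i :=
        (eventually_all_finset _).2 h1
      exact h2
    · intro w hwA hwV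
      refine hIU fun i hi => ?_
      exact hw i (w i) (hwA ⟨i, hn i hi⟩) (hwV i (Finset.mem_range.2 (hn i hi)))

end Pool.Agent.H8.FM
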